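import Mathlib

set_option autoImplicit false

/-!
# Completely multiplicative maps into compact groups (helper914)
-/

namespace Pool.Agent.N914.RG

open Topology

variable {G : Type*} [CommGroup G] [TopologicalSpace G] [IsTopologicalGroup G] [CompactSpace G]

/-- a finite cell decomposition: elements of one cell differ by an element of `V` -/
theorem cells (V : Set G) (hV : V ∈ 𝓝 (1 : G)) : ∃ (ρ : ℕ) (cell : G → Fin ρ),
    ∀ x y, cell x = cell y → x * y⁻¹ ∈ V := by
  classical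
  obtain ⟨A, hA, hAV⟩ := exists_nhds_split_inv hV
  obtain ⟨t, ht⟩ := compact_covered_by_mul_left_translates (isCompact_univ (X := G))
    (V := A) ⟨1, mem_interior_iff_mem_nhds.2 hA⟩
  have h1 : ∀ x : G, ∃ g : t, (g : G) * x ∈ A := by
    intro x
    have h2 := ht (Set.mem_univ x)
    simp only [Set.mem_iUnion, Set.mem_preimage] at h2
    obtain ⟨g, hg, hx⟩ := h2
    exact ⟨⟨g, hg⟩, hx⟩
  choose c hc using h1
  refine ⟨Fintype.card t, fun x => Fintype.equivFin t (c x), fun x y hxy => ?_⟩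
  have h3 : c x = c y := (Fintype.equivFin t).injective hxy
  have h4 := hAV _ (hc x) _ (h3 ▸ hc y)
  rwa [mul_div_mul_left_eq_div, div_eq_mul_inv] at h4

/-- some power of every element is close to `1` -/
theorem pow_close (V : Set G) (hV : V ∈ 𝓝 (1 : G)) (b : G) : ∃ j : ℕ, 0 < j ∧ b ^ j ∈ V := by
  obtain ⟨ρ, cell, hcell⟩ := cells V hV
  have h1 : ∃ x ∈ Finset.range (ρ + 1), ∃ y ∈ Finset.range (ρ + 1), x ≠ y ∧
      cell (b ^ x) = cell (b ^ y) := by
    apply Finset.exists_ne_map_eq_of_card_lt_of_maps_to (t := (Finset.univ : Finset (Fin ρ)))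
    · simp
    · intro x _
      simp
  obtain ⟨x, -, y, -, hne, he⟩ := h1
  rcases lt_or_gt_of_ne hne with h | h
  · refine ⟨y - x, by omega, ?_⟩
    have h2 := hcell _ _ he.symm
    rwa [← pow_sub b h.le] at h2
  · refine ⟨x - y, by omega, ?_⟩
    have h2 := hcell _ _ he
    rwa [← pow_sub b h.le] at h2

/-- the values of a completely multiplicative map into a compact group at bounded integers
approximate all quotients of values -/
theorem approx (g : ℕ → G) (hg : ∀ a b, 0 < a → 0 < b → g (a * b) = g a * g b)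
    (W : Set G) (hW : W ∈ 𝓝 (1 : G)) : ∃ M : ℕ, ∀ a b : ℕ, 0 < a → 0 < b →
    ∃ m, 0 < m ∧ m ≤ M ∧ g m * g b * (g a)⁻¹ ∈ W := by
  classical
  obtain ⟨V, hV, hVV⟩ := exists_nhds_one_split4 hW
  obtain ⟨ρ, cell, hcell⟩ := cells V hV
  have hone : g 1 = 1 := by
    have := hg 1 1 one_pos one_pos
    rw [mul_one] at this
    exact (mul_eq_left (a := g 1)).1 this.symm
  have hpow : ∀ (b : ℕ), 0 < b → ∀ j : ℕ, g (b ^ j) = (g b) ^ j := by
    intro b hb j
    induction j with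
    | zero => rw [pow_zero, pow_zero, hone]
    | succ j ih => rw [pow_succ, pow_succ, hg _ _ (Nat.pow_pos hb) hb, ih]
  -- for single pairs
  have hpair : ∀ a b : ℕ, 0 < a → 0 < b → ∃ m, 0 < m ∧ g m * g b * (g a)⁻¹ ∈ V := by
    intro a b ha hb
    obtain ⟨j, hj, hjV⟩ := pow_close V hV (g b)
    refine ⟨a * b ^ (j - 1), Nat.mul_pos ha (Nat.pow_pos hb), ?_⟩
    rw [hg _ _ ha (Nat.pow_pos hb), hpow b hb, mul_assoc (g a), ← pow_succ,
      Nat.sub_add_cancel hj, mul_comm (g a), mul_assoc, mul_inv_cancel, mul_one]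
    exact hjV
  have hcc : ∀ c : Fin ρ × Fin ρ, ∃ m : ℕ, 0 < m ∧ ∀ a b, 0 < a → 0 < b → cell (g a) = c.1 →
      cell (g b) = c.2 → g m * g b * (g a)⁻¹ ∈ W := by
    intro c
    by_cases hex : ∃ a b : ℕ, 0 < a ∧ 0 < b ∧ cell (g a) = c.1 ∧ cell (g b) = c.2
    · obtain ⟨a', b', ha', hb', ha, hb⟩ := hex
      obtain ⟨m, hm, hmV⟩ := hpair a' b' ha' hb'
      refine ⟨m, hm, fun a b _ _ hca hcb => ?_⟩
      have h1 : g b * (g b')⁻¹ ∈ V := hcell _ _ (hcb.trans hb.symm)
      have h2 : g a' * (g a)⁻¹ ∈ V := hcell _ _ (ha.trans hca.symm)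
      have h3 := hVV hmV h1 h2 (mem_of_mem_nhds hV)
      have h4 : g m * g b' * (g a')⁻¹ * (g b * (g b')⁻¹) * (g a' * (g a)⁻¹) * 1 =
          g m * g b * (g a)⁻¹ := by
        rw [mul_one]
        have e1 : g m * g b' * (g a')⁻¹ * (g b * (g b')⁻¹) * (g a' * (g a)⁻¹) =
          g m * g b * (g a)⁻¹ * (g b' * (g b')⁻¹) * (g a' * (g a')⁻¹) := by
          simp only [mul_assoc, mul_comm, mul_left_comm]
        rw [e1, mul_inv_cancel, mul_inv_cancel, mul_one, mul_one]
      rwa [h4] at h3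
    · refine ⟨1, one_pos, fun a b ha hb hca hcb => ?_⟩
      exact absurd ⟨a, b, ha, hb, hca, hcb⟩ hex
  choose μ hμ0 hμ using hcc
  refine ⟨Finset.univ.sup μ, fun a b ha hb => ?_⟩
  refine ⟨μ (cell (g a), cell (g b)), hμ0 _, Finset.le_sup (f := μ) (Finset.mem_univ _), ?_⟩
  exact hμ _ a b ha hb rfl rfl

end Pool.Agent.N914.RG
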