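import Pool.Agent.TH709.RGap.DeuberMain
import Pool.Agent.N914.RG.Approx

set_option autoImplicit false
set_option maxHeartbeats 4000000

/-!
# Completely multiplicative maps into compact groups at consecutive record gaps (helper914)
-/

namespace Pool.Agent.N914.RG

open Finset Filter Topology
open Pool.Agent.H256R2.SC (ff)
open Pool.Agent.TH709.RGap

/-- the condition on the Deuber set of the gaps after the `n`-th prime -/
def DCond {G : Type*} [CommGroup G] (g : ℕ → G) (U : Set G) (q c₀ k ρ : ℕ) (χ : ℕ → Fin ρ)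
    (m₀ : ℕ) (n : ℕ) : Prop :=
  ∃ col : Fin ρ, ∀ i < k, ∀ μ : ℕ → ℤ, (∀ j, |μ j| ≤ q) → ∃ m : ℕ, 0 < m ∧
        (m : ℤ) = c₀ * ((Nat.nth Nat.Prime (n + i + 1) : ℤ) - Nat.nth Nat.Prime (n + i)) +
          ∑ j ∈ range i, μ j * ((Nat.nth Nat.Prime (n + j + 1) : ℤ) - Nat.nth Nat.Prime (n + j)) ∧
        χ m = col ∧ g m * (g m₀)⁻¹ ∈ U

theorem mult_gaps {G : Type*} [CommGroup G] [TopologicalSpace G] [IsTopologicalGroup G]
    [CompactSpace G] (g : ℕ → G) (hg : ∀ a b, 0 < a → 0 < b → g (a * b) = g a * g b)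
    (U : Set G) (hU : U ∈ 𝓝 (1 : G)) (k q c₀ ρ : ℕ) (hc₀ : 0 < c₀) :
    ∃ c : ℝ, 0 < c ∧ ∀ᶠ x : ℝ in atTop, ∀ χ : ℕ → Fin ρ, ∀ m₀ : ℕ, 0 < m₀ →
    x ^ (7 / 8 : ℝ) ≤ (Set.ncard {n : ℕ | (Nat.nth Nat.Prime (n + k) : ℝ) ≤ x ∧
      (∀ i < k, c * ff x ≤ (Nat.nth Nat.Prime (n + i + 1) : ℝ) - Nat.nth Nat.Prime (n + i)) ∧
      DCond g U q c₀ k ρ χ m₀ n} : ℝ) := by
  classical
  obtain ⟨V, hV, hVV⟩ := exists_nhds_one_split hU
  obtain ⟨σ, cell, hcell⟩ := cells V hV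
  obtain ⟨M, hM⟩ := approx g hg V hV
  obtain ⟨K, hK⟩ := engine k
  obtain ⟨e, -⟩ : ∃ e : (Fin σ × (Fin (M + 1) → Fin ρ)) ≃
    Fin (Fintype.card (Fin σ × (Fin (M + 1) → Fin ρ))), True := ⟨Fintype.equivFin _, trivial⟩
  obtain ⟨C, hC⟩ := mono_rows (Fintype.card (Fin σ × (Fin (M + 1) → Fin ρ))) (max q c₀) c₀ K hc₀
  obtain ⟨c, hc, hx⟩ := hK (C * M)
  refine ⟨c, hc, ?_⟩
  filter_upwards [hx] with x hxx χ m₀ hm₀
  obtain ⟨B, hB, hmain⟩ := hxx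
  obtain ⟨w, hw, col, hcol⟩ := hC (fun y => e (cell (g y), fun i => χ (B * i * y)))
  -- a representative
  obtain ⟨v₀, hv₀, hv⟩ : ∃ v₀ : ℕ, 0 < v₀ ∧ ∀ v : ℕ, 0 < v →
      e (cell (g v), fun i => χ (B * i * v)) = col →
      e (cell (g v₀), fun i => χ (B * i * v₀)) = col := by
    by_cases hex : ∃ v : ℕ, 0 < v ∧ e (cell (g v), fun i => χ (B * i * v)) = col
    · obtain ⟨v, h0, h1⟩ := hex
      exact ⟨v, h0, fun _ _ _ => h1⟩
    · exact ⟨1, one_pos, fun v h0 h1 => absurd ⟨v, h0, h1⟩ hex⟩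
  obtain ⟨m, hm0, hmM, hmV⟩ := hM m₀ (B * v₀) hm₀ (Nat.mul_pos hB hv₀)
  refine (hmain (fun i => m * w i) (fun i hi => ⟨Nat.mul_pos hm0 (hw i hi).1, ?_⟩)).trans ?_
  · rw [mul_comm C M]
    exact Nat.mul_le_mul hmM (hw i hi).2
  rw [Nat.cast_le, ← Set.ncard_coe_finset]
  refine Set.ncard_le_ncard ?_ ?_
  swap
  · refine (Set.finite_Iic ⌊x⌋₊).subset ?_
    rintro n ⟨h1, -⟩
    refine Nat.le_floor (le_trans ?_ h1)
    have h2 : n + k ≤ Nat.nth Nat.Prime (n + k) :=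
      (Nat.nth_strictMono Nat.infinite_setOfPred_prime).le_apply
    exact_mod_cast (Nat.le_add_right n k).trans h2
  intro n hn
  rw [mem_coe, mem_filter] at hn
  obtain ⟨-, h1, h2, a, ha, hak, hgap⟩ := hn
  refine ⟨h1, h2, χ (B * m * v₀), fun i hi μ hμ => ?_⟩
  have hgapz : ∀ j < k, (Nat.nth Nat.Prime (n + j + 1) : ℤ) - Nat.nth Nat.Prime (n + j) =
      B * (m * ((∑ l ∈ Ico (a j) (a (j + 1)), w l : ℕ) : ℤ)) := by
    intro j hj
    have h3 := hgap j hj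
    have h4 : Nat.nth Nat.Prime (n + j) ≤ Nat.nth Nat.Prime (n + j + 1) :=
      Nat.nth_monotone Nat.infinite_setOfPred_prime (Nat.le_succ _)
    rw [← Nat.cast_sub h4, h3, ← mul_sum, Nat.cast_mul, Nat.cast_mul]
  have hai : a (i + 1) ≤ a k := le_last a k ha (i + 1) hi
  have hai0 := ha i hi
  obtain ⟨μ', hμ', hs⟩ := leading w a μ q c₀ hμ i (fun j hj => ha j (by omega))
  obtain ⟨v, hv0, hvv, hvc⟩ := hcol (a (i + 1) - 1) (by omega) μ' hμ'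
  have hcol0 := hv v hv0 hvc
  have hsame := e.injective (hvc.trans hcol0.symm)
  rw [Prod.mk.injEq] at hsame
  obtain ⟨hs1, hs2⟩ := hsame
  refine ⟨B * m * v, Nat.mul_pos (Nat.mul_pos hB hm0) hv0, ?_, ?_, ?_⟩
  · rw [Nat.cast_mul, hvv, ← hs, hgapz i hi, mul_add, mul_sum, Nat.cast_mul]
    congr 1
    · ring
    · refine sum_congr rfl fun j hj => ?_
      rw [hgapz j (by
        have := mem_range.1 hj
        omega)]
      ring
  · have h5 := congrFun hs2 ⟨m, by omega⟩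
    exact h5
  · have h6 : g v * (g v₀)⁻¹ ∈ V := hcell _ _ hs1
    have h7 := hVV _ h6 _ hmV
    have h8 : g v * (g v₀)⁻¹ * (g m * g (B * v₀) * (g m₀)⁻¹) = g (B * m * v) * (g m₀)⁻¹ := by
      rw [hg _ _ (Nat.mul_pos hB hm0) hv0, hg _ _ hB hm0, hg _ _ hB hv₀]
      have e1 : g v * (g v₀)⁻¹ * (g m * (g B * g v₀) * (g m₀)⁻¹) =
          g B * g m * g v * (g m₀)⁻¹ * (g v₀ * (g v₀)⁻¹) := by
        simp only [mul_assoc, mul_comm, mul_left_comm]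
      rw [e1, mul_inv_cancel, mul_one]
    rwa [h8] at h7

end Pool.Agent.N914.RG
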